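import Mathlib
import Pool.Agent.TransDeg.Link
import Pool.Agent.TransDeg.SympNo
import Pool.Agent.TransDeg.CentralCase
import Pool.Agent.TD.Avoid

set_option autoImplicit false
set_option linter.unusedVariables false
set_option linter.unusedSectionVars false

/-!
# Infinite countable groups of transitivity degree `k` for every `k ≥ 4`, `k ≠ 5`
-/

namespace Pool.Agent.Results.MP_3ae405_al.AllButFive

open Pool.Agent.TD TransDeg.Sect
open scoped commutatorElement

/-- An action of `G` on `X` is `k`-transitive: `X` has at least `k` points and `G` acts transitively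
on the ordered `k`-tuples of pairwise distinct points. -/
def KTrans (G X : Type) [Group G] [MulAction G X] (k : ℕ) : Prop :=
  Nonempty (Fin k ↪ X) ∧ ∀ x y : Fin k ↪ X, ∃ g : G, ∀ i, g • x i = y i

/-- `G` admits a faithful `k`-transitive action, `k ≥ 1`. -/
def HasFaithfulKTrans (G : Type) [Group G] (k : ℕ) : Prop :=
  1 ≤ k ∧ ∃ (X : Type) (_ : MulAction G X), (∀ g : G, (∀ x : X, g • x = x) → g = 1) ∧
    KTrans G X k

/-- The transitivity degree: the supremum of all `k` such that `G` admits a faithful `k`-transitive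
action. -/
noncomputable def td (G : Type) [Group G] : ℕ∞ :=
  ⨆ (k : ℕ) (_ : HasFaithfulKTrans G k), (k : ℕ∞)

/-- A group all of whose elements have finite order prime to `p` has no `m`-transitive action,
faithful or not, for `m ≥ p`. -/
theorem no_action_of_tor {G : Type} [Group G] {p : ℕ} (hp : 2 ≤ p)
    (hG : ∀ g : G, ∃ n : ℕ, ¬ p ∣ n ∧ g ^ n = 1) {m : ℕ}
    (hm : p ≤ m) (X : Type) [MulAction G X] : ¬ KTrans G X m := by
  rintro ⟨⟨x⟩, h⟩
  have hp0 : 0 < p := by omega
  let σ : Equiv.Perm (Fin m) := (finRotate p).viaFintypeEmbedding (Fin.castLEEmb hm)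
  have hσ : ∀ i : Fin p, σ (Fin.castLE hm i) = Fin.castLE hm (finRotate p i) := fun i =>
    Equiv.Perm.viaFintypeEmbedding_apply_image _ (Fin.castLEEmb hm) i
  obtain ⟨g, hg⟩ := h x (σ.toEmbedding.trans x)
  obtain ⟨n, hn, hgn⟩ := hG g
  have h1 : ∀ (j : ℕ) (i : Fin p), g ^ j • x (Fin.castLE hm i) =
      x (Fin.castLE hm (((finRotate p) ^ j) i)) := by
    intro j
    induction j with
    | zero => intro i; simp
    | succ j ih =>
      intro i
      rw [pow_succ, mul_smul, hg]
      show g ^ j • x (σ (Fin.castLE hm i)) = _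
      rw [hσ, ih, pow_succ, Equiv.Perm.mul_apply]
  have h2 : ((finRotate p) ^ n) = 1 := by
    ext i
    have h3 := h1 n i
    rw [hgn, one_smul] at h3
    have h4 := Fin.castLE_injective hm (x.injective h3)
    rw [← h4]; rfl
  have h5 : orderOf (finRotate p) = p := by
    obtain ⟨q, rfl⟩ : ∃ q, p = q + 2 := ⟨p - 2, by omega⟩
    have h6 := (isCycle_finRotate (n := q)).orderOf
    rw [h6, support_finRotate]
    simp
  have h7 := orderOf_dvd_of_pow_eq_one h2
  rw [h5] at h7
  exact hn h7

/-- A group without a section isomorphic to `Alt n` has no `m`-transitive action for `m ≥ n`. -/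
theorem no_action_of_noSect {G : Type} [Group G] {n : ℕ} (hG : NoSect n G) {m : ℕ}
    (hm : n ≤ m) (X : Type) [MulAction G X] : ¬ KTrans G X m := by
  rintro ⟨⟨x⟩, H⟩
  obtain ⟨f, hf⟩ := TransDeg.Cyc.exists_altEmb (α := Fin n) m (by simpa using hm)
  let D : Subgroup (G × Alt n) :=
    { carrier := {p | ∀ i, p.1 • x i = x ((f p.2 : Equiv.Perm (Fin m)) i)}
      one_mem' := fun i => by simp
      mul_mem' := by
        intro p q hp hq i
        show (p.1 * q.1) • x i = x ((f (p.2 * q.2) : Equiv.Perm (Fin m)) i)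
        rw [mul_smul, hq, hp, map_mul]
        rfl
      inv_mem' := by
        intro p hp i
        show p.1⁻¹ • x i = x ((f (p.2⁻¹) : Equiv.Perm (Fin m)) i)
        rw [inv_smul_eq_iff, hp]
        congr 1
        show i = ((f p.2 * f (p.2⁻¹) : alternatingGroup (Fin m)) : Equiv.Perm (Fin m)) i
        rw [← map_mul, mul_inv_cancel, map_one]
        rfl }
  let i1 : D →* G := (MonoidHom.fst G (Alt n)).comp D.subtype
  let i2 : D →* Alt n := (MonoidHom.snd G (Alt n)).comp D.subtype
  refine noSect_of_hom hG D i1 i2 ?_ ?_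
  · intro p hp
    rw [MonoidHom.mem_ker] at hp ⊢
    have h1 : (p : G × Alt n).1 = 1 := hp
    have h2 := p.2
    show (p : G × Alt n).2 = 1
    apply hf
    rw [map_one]
    apply Subtype.ext
    ext i : 1
    apply x.injective
    have h3 : (p : G × Alt n).1 • x i = x ((f (p : G × Alt n).2 : Equiv.Perm (Fin m)) i) := h2 i
    rw [h1, one_smul] at h3
    exact h3.symm
  · intro a
    obtain ⟨g, hg⟩ := H x ((f a : Equiv.Perm (Fin m)).toEmbedding.trans x)
    exact ⟨⟨(g, a), fun i => hg i⟩, rfl⟩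

/-- `Alt n`, `n ≥ 8`, is not a section of `GL(n-2, p)` for any prime `p > n`. -/
theorem noSect_GL {n p : ℕ} (hn : 8 ≤ n) [hp : Fact p.Prime] (hpn : n < p) :
    NoSect n (GL (Fin (n - 2)) (ZMod p)) := by
  by_contra hcon
  have hfac : (n - 2).factorial < n.factorial / 2 := by
    obtain ⟨m, rfl⟩ : ∃ m, n = m + 2 := ⟨n - 2, by omega⟩
    have h1 : (m + 2).factorial = (m + 2) * ((m + 1) * m.factorial) := rfl
    have h2 : 0 < m.factorial := Nat.factorial_pos m
    have h3 : m + 2 - 2 = m := by omega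
    rw [h3, h1, Nat.lt_iff_add_one_le, Nat.le_div_iff_mul_le (by norm_num)]
    have h4 : 8 * (7 * m.factorial) ≤ (m + 2) * ((m + 1) * m.factorial) :=
      Nat.mul_le_mul (by omega) (Nat.mul_le_mul (by omega) le_rfl)
    omega
  rcases TransDeg.Link.alternatives (d := n - 2) (by omega) hfac hpn hcon with h | h
  · obtain ⟨U, _, _, ρ, π, hρ, hmin, hU, hker⟩ := h
    have h1 := TransDeg.Cent.central_case hn π hmin.surj hker hU ρ (by simp)
    obtain ⟨a, b, hab⟩ := TransDeg.Link.alt_noncomm (n := n) (by omega)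
    obtain ⟨x, rfl⟩ := hmin.surj a
    obtain ⟨y, rfl⟩ := hmin.surj b
    apply hab
    have h2 : ⁅x, y⁆ = 1 := hρ (by rw [map_one]; exact h1 x y)
    rw [commutatorElement_eq_one_iff_mul_comm] at h2
    rw [← map_mul, ← map_mul, h2]
  · obtain ⟨s, M, _, _, ⟨D⟩⟩ := h
    exact TransDeg.Cyc.no_symp hn D

/-- For every `k ≥ 4` except `k = 5` there is an infinite countable group of transitivity degree
exactly `k`: it has a faithful `k`-transitive action on an infinite set, and no `m`-transitive
action, faithful or not, for any `m > k`. -/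
theorem result : ∀ k : ℕ, 4 ≤ k → k ≠ 5 →
    ∃ (G : Type) (_ : Group G), Infinite G ∧ Countable G ∧
      (∃ (X : Type) (_ : MulAction G X), Infinite X ∧
        (∀ g : G, (∀ x : X, g • x = x) → g = 1) ∧ KTrans G X k) ∧
      (∀ m : ℕ, k < m → ∀ (X : Type) (_ : MulAction G X), ¬ KTrans G X m) ∧
      td G = (k : ℕ∞) := by
  intro k hk4 hk5
  have key : ∃ (G : Type) (_ : Group G), Infinite G ∧ Countable G ∧
      (∃ (X : Type) (_ : MulAction G X), Infinite X ∧
        (∀ g : G, (∀ x : X, g • x = x) → g = 1) ∧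
        (∀ x y : Fin k ↪ X, ∃ g : G, ∀ i, g • x i = y i)) ∧
      (∀ m : ℕ, k < m → ∀ (X : Type) (_ : MulAction G X), ¬ KTrans G X m) := by
    by_cases hk7 : 7 ≤ k
    · obtain ⟨G, iG, hP, hinf, hcount, X, iX, hX, hfaith, htr⟩ :=
        TransDeg.Link.exists_group (k + 1) (by omega) (fun N => by
          obtain ⟨p, hp, hpp⟩ := Nat.exists_infinite_primes (max N (k + 1) + 1)
          have hp' : Fact p.Prime := ⟨hpp⟩
          exact ⟨p, by omega, hp', noSect_GL (by omega) (by omega)⟩)
      exact ⟨G, iG, hinf, hcount, ⟨X, iX, hX, hfaith, htr⟩, fun m hm Y iY =>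
        no_action_of_noSect hP hm Y⟩
    · -- `k = 4` or `k = 6`
      have hpr : (k + 1).Prime := by
        have : k = 4 ∨ k = 6 := by omega
        rcases this with rfl | rfl <;> norm_num
      have hloc : Local (avoid (k + 1) hpr) k := by
        have h1 := local_avoid (k + 1) hpr (k - 1) (by omega) (by omega)
        rwa [Nat.sub_add_cancel (by omega)] at h1
      obtain ⟨G, iG, hP, hinf, hcount, X, iX, hX, hfaith, htr⟩ :=
        exists_limit_faithful (avoid (k + 1) hpr) k (by omega) hloc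
      exact ⟨G, iG, hinf, hcount, ⟨X, iX, hX, hfaith, htr⟩, fun m hm Y iY =>
        no_action_of_tor hpr.two_le hP hm Y⟩
  obtain ⟨G, iG, hinf, hcount, ⟨X, iX, hX, hfaith, htr⟩, hno⟩ := key
  have hemb : Nonempty (Fin k ↪ X) := ⟨Fin.valEmbedding.trans (Infinite.natEmbedding X)⟩
  refine ⟨G, iG, hinf, hcount, ⟨X, iX, hX, hfaith, hemb, htr⟩, hno, ?_⟩
  apply le_antisymm
  · refine iSup₂_le ?_
    rintro m ⟨-, Y, iY, -, hm⟩
    have h1 : ¬ k < m := fun h => hno m h Y iY hm
    have h2 : m ≤ k := by omega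
    exact_mod_cast h2
  · refine le_iSup₂_of_le k ?_ le_rfl
    exact ⟨by omega, X, iX, hfaith, hemb, htr⟩

end Pool.Agent.Results.MP_3ae405_al.AllButFive
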